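import Pool.Agent.W873.RT.Stm
import Pool.Agent.W695.RS.DET3

set_option autoImplicit false

open MeasureTheory ProbabilityTheory Polynomial Filter Topology
open scoped ENNReal

namespace Pool.Agent.W291.RT.DETG
open Pool.Agent.W873.RS Pool.Agent.W695.RS.DET3

lemma per_root (hD : DET2) (F G : ℝ → ℝ) (hF : Continuous F) (hG : Continuous G)
    (r η δ : ℝ) (hη : 0 < η)
    (hδ : 0 < δ) (hr : F r = 0) (hGr : 0 < G r) (hG0 : ∀ x, 0 ≤ G x)
    (h1 : δ * G (r - η) < |F (r - η)|) (h2 : δ * G (r + η) < |F (r + η)|) :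
    ∀ᶠ ε in 𝓝[>] (0 : ℝ), ENNReal.ofReal ε * 2 ≤
      volume (cs (fun x => F x - δ * G x) (r - η) (r + η) ε) +
      volume (cs (fun x => F x + δ * G x) (r - η) (r + η) ε) := by
  have hm : Continuous (fun x => F x - δ * G x) := hF.sub (continuous_const.mul hG)
  have hp : Continuous (fun x => F x + δ * G x) := hF.add (continuous_const.mul hG)
  have hlt : r - η < r + η := by linarith
  have hl1 : r - η < r := by linarith
  have hl2 : r < r + η := by linarith
  have g0 : 0 < δ * G r := mul_pos hδ hGr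
  have g1 : 0 ≤ δ * G (r - η) := mul_nonneg hδ.le (hG0 _)
  have g2 : 0 ≤ δ * G (r + η) := mul_nonneg hδ.le (hG0 _)
  rcases lt_abs.1 h1 with a | a <;> rcases lt_abs.1 h2 with b | b
  · -- both positive
    have e1 := hD (fun x => F x - δ * G x) (r - η) r hm hl1
      (mul_neg_of_pos_of_neg (by linarith) (by linarith))
    have e2 := hD (fun x => F x - δ * G x) r (r + η) hm hl2
      (mul_neg_of_neg_of_pos (by linarith) (by linarith))
    filter_upwards [e1, e2] with ε k1 k2
    calc ENNReal.ofReal ε * 2 = ENNReal.ofReal ε + ENNReal.ofReal ε := mul_two _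
      _ ≤ volume (cs (fun x => F x - δ * G x) (r - η) r ε) +
          volume (cs (fun x => F x - δ * G x) r (r + η) ε) := add_le_add k1 k2
      _ ≤ volume (cs (fun x => F x - δ * G x) (r - η) (r + η) ε) :=
          cs_split _ hm _ _ _ _ hl1 hl2
      _ ≤ _ := le_self_add
  · have e1 := hD (fun x => F x - δ * G x) (r - η) (r + η) hm hlt
      (mul_neg_of_pos_of_neg (by linarith) (by linarith))
    have e2 := hD (fun x => F x + δ * G x) (r - η) (r + η) hp hlt
      (mul_neg_of_pos_of_neg (by linarith) (by linarith))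
    filter_upwards [e1, e2] with ε k1 k2
    calc ENNReal.ofReal ε * 2 = ENNReal.ofReal ε + ENNReal.ofReal ε := mul_two _
      _ ≤ _ := add_le_add k1 k2
  · have e1 := hD (fun x => F x - δ * G x) (r - η) (r + η) hm hlt
      (mul_neg_of_neg_of_pos (by linarith) (by linarith))
    have e2 := hD (fun x => F x + δ * G x) (r - η) (r + η) hp hlt
      (mul_neg_of_neg_of_pos (by linarith) (by linarith))
    filter_upwards [e1, e2] with ε k1 k2
    calc ENNReal.ofReal ε * 2 = ENNReal.ofReal ε + ENNReal.ofReal ε := mul_two _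
      _ ≤ _ := add_le_add k1 k2
  · -- both negative
    have e1 := hD (fun x => F x + δ * G x) (r - η) r hp hl1
      (mul_neg_of_neg_of_pos (by linarith) (by linarith))
    have e2 := hD (fun x => F x + δ * G x) r (r + η) hp hl2
      (mul_neg_of_pos_of_neg (by linarith) (by linarith))
    filter_upwards [e1, e2] with ε k1 k2
    calc ENNReal.ofReal ε * 2 = ENNReal.ofReal ε + ENNReal.ofReal ε := mul_two _
      _ ≤ volume (cs (fun x => F x + δ * G x) (r - η) r ε) +
          volume (cs (fun x => F x + δ * G x) r (r + η) ε) := add_le_add k1 k2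
      _ ≤ volume (cs (fun x => F x + δ * G x) (r - η) (r + η) ε) :=
          cs_split _ hp _ _ _ _ hl1 hl2
      _ ≤ _ := le_add_self

theorem main (hD : Pool.Agent.W873.RS.DET2) : Pool.Agent.W873.RT.DETG := by
  intro f g hf hg
  set Z : Finset ℝ := f.roots.toFinset.filter (fun x => 0 < x ∧ g.eval x ≠ 0) with hZdef
  have hZpos : ∀ r ∈ Z, 0 < r := fun r hr => (Finset.mem_filter.1 hr).2.1
  have hZg : ∀ r ∈ Z, 0 < g.eval r := fun r hr =>
    lt_of_le_of_ne (hg r) (Ne.symm (Finset.mem_filter.1 hr).2.2)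
  have hZR : ∀ r ∈ Z, r ∈ f.roots.toFinset := fun r hr => (Finset.mem_filter.1 hr).1
  have hroot : ∀ r, r ∈ f.roots.toFinset ↔ f.eval r = 0 := by
    intro r
    rw [Multiset.mem_toFinset, mem_roots hf, IsRoot.def]
  obtain ⟨η, hη, hη1, hη2⟩ := exists_sep f.roots.toFinset Z hZpos
  have hne1 : ∀ r ∈ Z, f.eval (r - η) ≠ 0 := by
    intro r hr h0
    have := hη2 r (hZR r hr) (r - η) ((hroot _).2 h0) (by intro h; linarith)
    rw [show r - (r - η) = η by ring, abs_of_pos hη] at this
    linarith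
  have hne2 : ∀ r ∈ Z, f.eval (r + η) ≠ 0 := by
    intro r hr h0
    have := hη2 r (hZR r hr) (r + η) ((hroot _).2 h0) (by intro h; linarith)
    rw [show r - (r + η) = -η by ring, abs_neg, abs_of_pos hη] at this
    linarith
  have key : ∀ u v : ℝ, 0 < |v| → ∀ᶠ δ in 𝓝[>] (0 : ℝ), δ * u < |v| := by
    intro u v hv
    have hc : Filter.Tendsto (fun δ : ℝ => δ * u) (𝓝 0) (𝓝 (0 * u)) :=
      (continuous_id.mul continuous_const).tendsto 0
    rw [zero_mul] at hc
    exact nhdsWithin_le_nhds (hc.eventually (eventually_lt_nhds hv))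
  have e1 : ∀ᶠ δ in 𝓝[>] (0 : ℝ), ∀ r ∈ Z, δ * g.eval (r - η) < |f.eval (r - η)| := by
    rw [Filter.eventually_all_finset]
    intro r hr
    exact key _ _ (abs_pos.2 (hne1 r hr))
  have e2 : ∀ᶠ δ in 𝓝[>] (0 : ℝ), ∀ r ∈ Z, δ * g.eval (r + η) < |f.eval (r + η)| := by
    rw [Filter.eventually_all_finset]
    intro r hr
    exact key _ _ (abs_pos.2 (hne2 r hr))
  filter_upwards [e1, e2, self_mem_nhdsWithin] with δ k1 k2 hδ
  have hF : Continuous (fun x => f.eval x) := f.continuous
  have hG : Continuous (fun x => g.eval x) := g.continuous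
  have e3 : ∀ᶠ ε in 𝓝[>] (0 : ℝ), ∀ r ∈ Z, ENNReal.ofReal ε * 2 ≤
      volume (cs (fun x => f.eval x - δ * g.eval x) (r - η) (r + η) ε) +
      volume (cs (fun x => f.eval x + δ * g.eval x) (r - η) (r + η) ε) := by
    rw [Filter.eventually_all_finset]
    intro r hr
    exact per_root hD (fun x => f.eval x) (fun x => g.eval x) hF hG r η δ hη hδ
      ((hroot r).1 (hZR r hr)) (hZg r hr) hg (k1 r hr) (k2 r hr)
  filter_upwards [e3] with ε k3
  have hs : ∀ r ∈ Z, ∀ r' ∈ Z, r ≠ r' → 2 * η < |r - r'| :=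
    fun r hr r' hr' hne => hη2 r (hZR r hr) r' (hZR r' hr') hne
  have s1 := sum_le (fun x => f.eval x - δ * g.eval x)
    (hF.sub (continuous_const.mul hG)) Z η ε hη1 hs
  have s2 := sum_le (fun x => f.eval x + δ * g.eval x)
    (hF.add (continuous_const.mul hG)) Z η ε hη1 hs
  have t1 : (fun x => (f - C δ * g).eval x) = fun x => f.eval x - δ * g.eval x := by
    funext x; simp
  have t2 : (fun x => (f + C δ * g).eval x) = fun x => f.eval x + δ * g.eval x := by
    funext x; simp
  rw [t1, t2]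
  calc ENNReal.ofReal ε * (2 * (Z.card : ℝ≥0∞))
      = ∑ r ∈ Z, ENNReal.ofReal ε * 2 := by
        rw [Finset.sum_const, nsmul_eq_mul]
        ring
    _ ≤ ∑ r ∈ Z, (volume (cs (fun x => f.eval x - δ * g.eval x) (r - η) (r + η) ε) +
        volume (cs (fun x => f.eval x + δ * g.eval x) (r - η) (r + η) ε)) :=
        Finset.sum_le_sum k3
    _ = _ := Finset.sum_add_distrib
    _ ≤ _ := add_le_add s1 s2

end Pool.Agent.W291.RT.DETG
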